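import Mathlib
import Pool.Agent.N290.RI.Defs
import Pool.Agent.N290.RI.Stm
import Pool.Agent.N290.RI.Un

/-!
# The smooth solution of the Bezout equation (project RI of helper290; this part: helper31)
-/

set_option autoImplicit false

open Complex MeasureTheory Set Filter Topology
open scoped ENNReal ContDiff

namespace Pool.Agent.N31.RI

open Pool.Agent.N290.RI

/-- complex differentiable functions on an open set of `ℂ²` are continuously differentiable -/
theorem hol_contDiffOn {f : ℂ × ℂ → ℂ} {U : Set (ℂ × ℂ)} (hU : IsOpen U)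
    (hf : DifferentiableOn ℂ f U) : ContDiffOn ℂ 1 f U := by
  have h0 : ContinuousOn (fderiv ℂ f) U := by
    rw [continuousOn_clm_apply]
    intro ξ z0 hz0
    apply ContinuousAt.continuousWithinAt
    obtain ⟨R, hR, hRU⟩ := Metric.nhds_basis_closedBall.mem_iff.1 (hU.mem_nhds hz0)
    have huc := (isCompact_closedBall z0 R).uniformContinuousOn_of_continuous
      (hf.continuousOn.mono hRU)
    rw [Metric.uniformContinuousOn_iff] at huc
    rw [Metric.continuousAt_iff]
    intro ε hε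
    obtain ⟨r, hr⟩ : ∃ r, r = R / (2 * (‖ξ‖ + 1)) := ⟨_, rfl⟩
    have hξ : 0 < ‖ξ‖ + 1 := by positivity
    have hr0 : 0 < r := by rw [hr]; positivity
    have hrξ : r * ‖ξ‖ ≤ R / 2 := by
      have : r * (‖ξ‖ + 1) = R / 2 := by rw [hr]; field_simp
      nlinarith
    obtain ⟨d, hd, hd'⟩ := huc (ε * r / 2) (by positivity)
    refine ⟨min (R / 2) d, by positivity, fun {z} hz => ?_⟩
    have hz1 : dist z z0 < R / 2 := hz.trans_le (min_le_left _ _)
    have hz2 : dist z z0 < d := hz.trans_le (min_le_right _ _)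
    have hin : ∀ w : ℂ × ℂ, dist w z0 < R / 2 → ∀ ζ ∈ Metric.closedBall (0 : ℂ) r,
        w + ζ • ξ ∈ Metric.closedBall z0 R := by
      intro w hw ζ hζ
      rw [mem_closedBall_zero_iff] at hζ
      rw [Metric.mem_closedBall, dist_eq_norm]
      have e1 : w + ζ • ξ - z0 = (w - z0) + ζ • ξ := by abel
      rw [e1]
      refine (norm_add_le _ _).trans ?_
      rw [norm_smul, ← dist_eq_norm]
      have : ‖ζ‖ * ‖ξ‖ ≤ r * ‖ξ‖ := mul_le_mul_of_nonneg_right hζ (norm_nonneg _)
      linarith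
    have hdiff : ∀ w : ℂ × ℂ, dist w z0 < R / 2 → ∀ ζ ∈ Metric.closedBall (0 : ℂ) r,
        HasDerivAt (fun ζ : ℂ => f (w + ζ • ξ)) (fderiv ℂ f (w + ζ • ξ) ξ) ζ := by
      intro w hw ζ hζ
      have h1 : DifferentiableAt ℂ f (w + ζ • ξ) :=
        hf.differentiableAt (hU.mem_nhds (hRU (hin w hw ζ hζ)))
      have h2 : HasDerivAt (fun ζ : ℂ => w + ζ • ξ) ξ ζ := by
        have := ((hasDerivAt_id ζ).smul_const ξ).const_add w
        simpa using this
      exact h1.hasFDerivAt.comp_hasDerivAt ζ h2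
    have hz0' : dist z0 z0 < R / 2 := by rw [dist_self]; positivity
    have hder : ∀ ζ ∈ Metric.closedBall (0 : ℂ) r,
        HasDerivAt (fun ζ : ℂ => f (z + ζ • ξ) - f (z0 + ζ • ξ))
          (fderiv ℂ f (z + ζ • ξ) ξ - fderiv ℂ f (z0 + ζ • ξ) ξ) ζ := fun ζ hζ =>
      (hdiff z hz1 ζ hζ).sub (hdiff z0 hz0' ζ hζ)
    have hcl : DiffContOnCl ℂ (fun ζ : ℂ => f (z + ζ • ξ) - f (z0 + ζ • ξ)) (Metric.ball 0 r) := by
      apply DifferentiableOn.diffContOnCl_ball (U := Metric.closedBall 0 r) _ Subset.rfl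
      intro ζ hζ
      exact (hder ζ hζ).differentiableAt.differentiableWithinAt
    have hb := norm_deriv_le_of_forall_mem_sphere_norm_le hr0 hcl (C := ε * r / 2) (by
      intro ζ hζ
      have hζ' : ζ ∈ Metric.closedBall (0 : ℂ) r := Metric.sphere_subset_closedBall hζ
      have h3 := hd' (z + ζ • ξ) (hin z hz1 ζ hζ') (z0 + ζ • ξ) (hin z0 hz0' ζ hζ')
        (by rw [dist_add_right]; exact hz2)
      rw [dist_eq_norm] at h3
      exact h3.le)
    have h4 := (hder 0 (Metric.mem_closedBall_self hr0.le)).deriv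
    rw [h4, zero_smul, add_zero, add_zero] at hb
    rw [dist_eq_norm]
    refine hb.trans_lt ?_
    rw [div_lt_iff₀ hr0]
    nlinarith
  rw [show (1 : ℕ∞ω) = 0 + 1 from rfl, contDiffOn_succ_iff_fderiv_of_isOpen hU]
  refine ⟨hf, fun h => absurd h (by simp), ?_⟩
  exact contDiffOn_zero.2 h0

/-- a real linear map in terms of its values at `1` and `I` -/
theorem lin_conj (D : ℂ →L[ℝ] ℂ) (η : ℂ) :
    D η + I * D (I * η) = starRingEnd ℂ η * (D 1 + I * D I) := by
  have h1 : η = (η.re : ℝ) • (1 : ℂ) + (η.im : ℝ) • I := by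
    apply Complex.ext <;> simp
  have h2 : I * η = (-η.im : ℝ) • (1 : ℂ) + (η.re : ℝ) • I := by
    apply Complex.ext <;> simp
  have h3 : starRingEnd ℂ η = η.re - η.im * I := by
    apply Complex.ext <;> simp
  rw [h2, map_add, map_smul, map_smul, h3]
  nth_rewrite 1 [h1]
  rw [map_add, map_smul, map_smul]
  simp only [Complex.real_smul, Complex.ofReal_neg]
  linear_combination ((η.im : ℂ) * D I) * Complex.I_mul_I

section

variable {f g : ℂ × ℂ → ℂ} {z : ℂ × ℂ}

theorem cdiv {γ : ℂ × ℂ → ℂ} (hγ : ContDiffAt ℝ 1 γ z) (hg : ContDiffAt ℝ 1 g z) (h0 : g z ≠ 0) :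
    ContDiffAt ℝ 1 (fun w => γ w / g w) z := by
  have h3 : (fun w => γ w / g w) = fun w => γ w * (g w)⁻¹ := by
    funext w
    rw [div_eq_mul_inv]
  rw [h3]
  exact hγ.mul (hg.inv h0)

/-- chain rule for `∂̄` -/
theorem db_chain {χ : ℂ → ℂ} (hχ : ContDiff ℝ 1 χ) (hf : DifferentiableAt ℂ f z) (ξ : ℂ × ℂ) :
    db (fun w => χ (f w)) z ξ = starRingEnd ℂ (fderiv ℂ f z ξ) * db1 χ (f z) := by
  have h1 : HasFDerivAt f ((fderiv ℂ f z).restrictScalars ℝ) z :=
    hf.hasFDerivAt.restrictScalars ℝ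
  have h2 : HasFDerivAt (fun w => χ (f w)) ((fderiv ℝ χ (f z)).comp
      ((fderiv ℂ f z).restrictScalars ℝ)) z :=
    ((hχ.differentiable one_ne_zero).differentiableAt.hasFDerivAt).comp z h1
  unfold db db1
  rw [h2.fderiv]
  simp only [ContinuousLinearMap.comp_apply, ContinuousLinearMap.coe_restrictScalars', map_smul,
    smul_eq_mul]
  rw [lin_conj]
  ring

/-- `∂̄` of a quotient by a holomorphic function -/
theorem db_div {γ : ℂ × ℂ → ℂ} (hγ : DifferentiableAt ℝ γ z) (hg : DifferentiableAt ℂ g z)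
    (h0 : g z ≠ 0) (ξ : ℂ × ℂ) : db (fun w => γ w / g w) z ξ = db γ z ξ / g z := by
  have h1 : DifferentiableAt ℂ (fun w => (g w)⁻¹) z := hg.inv h0
  have h2 := db_mul hγ (h1.restrictScalars ℝ) ξ
  rw [db_hol h1] at h2
  have h3 : (fun w => γ w / g w) = fun w => γ w * (g w)⁻¹ := by
    funext w
    rw [div_eq_mul_inv]
  rw [h3, h2]
  field_simp
  ring

end

theorem D2_of (h : D0) : D2 := by
  intro δ hδ
  obtain ⟨χ, ψ, C, hχ, hψ, hχ1, hχ0, hχb, hψ0, hψb, hψd, hdb⟩ := h δ hδ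
  have hC : 0 ≤ C := (norm_nonneg _).trans (hψb 0)
  refine ⟨2 * C / δ + 8 / δ + 4 * C / δ ^ 2 + 1, by positivity, ?_⟩
  obtain ⟨C₁, hC₁⟩ : ∃ C₁, C₁ = 2 * C / δ + 8 / δ + 4 * C / δ ^ 2 + 1 := ⟨_, rfl⟩
  rw [← hC₁]
  have k1 : 0 ≤ 2 * C / δ := by positivity
  have k2 : 0 ≤ 8 / δ := by positivity
  have k3 : 0 ≤ 4 * C / δ ^ 2 := by positivity
  have hC₁0 : 0 ≤ C₁ := by linarith
  intro f g hf hg hf1 hg1 hfg
  -- the value of `ψ` at zero
  have hψz : ψ 0 = 0 := by
    have h1 : ∀ w : ℂ, w ≠ 0 → ‖w‖ < δ / 4 → ψ w = 0 := by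
      intro w hw hw4
      have h2 : χ =ᶠ[𝓝 w] fun _ => (1 : ℂ) := by
        filter_upwards [(isOpen_lt continuous_norm continuous_const).mem_nhds hw4] with u hu
        exact hχ1 u (le_of_lt hu)
      have h3 := hdb w
      unfold db1 at h3
      rw [h2.fderiv_eq] at h3
      simp only [fderiv_fun_const, Pi.zero_apply, ContinuousLinearMap.zero_apply, mul_zero,
        add_zero, zero_div] at h3
      rcases mul_eq_zero.1 h3.symm with h4 | h4
      · exact absurd h4 hw
      · exact h4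
    have h2 : Tendsto ψ (𝓝[≠] 0) (𝓝 (ψ 0)) := (hψ.continuous.tendsto 0).mono_left nhdsWithin_le_nhds
    have h3 : Tendsto ψ (𝓝[≠] 0) (𝓝 0) := by
      apply tendsto_const_nhds.congr'
      have h4 : ∀ᶠ w in 𝓝[≠] (0 : ℂ), ‖w‖ < δ / 4 := by
        apply mem_nhdsWithin_of_mem_nhds
        exact (isOpen_lt continuous_norm continuous_const).mem_nhds (by simpa using by positivity)
      filter_upwards [h4, self_mem_nhdsWithin] with w hw hw'
      exact (h1 w hw' hw).symm
    exact tendsto_nhds_unique h2 h3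
  have cf : ∀ z ∈ B, ContDiffAt ℝ 1 f z := fun z hz =>
    ((hol_contDiffOn B_open hf).contDiffAt (B_open.mem_nhds hz)).restrict_scalars ℝ
  have cg : ∀ z ∈ B, ContDiffAt ℝ 1 g z := fun z hz =>
    ((hol_contDiffOn B_open hg).contDiffAt (B_open.mem_nhds hz)).restrict_scalars ℝ
  have df : ∀ z ∈ B, DifferentiableAt ℂ f z := fun z hz => hf.differentiableAt (B_open.mem_nhds hz)
  have dg : ∀ z ∈ B, DifferentiableAt ℂ g z := fun z hz => hg.differentiableAt (B_open.mem_nhds hz)
  -- the alternatives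
  have hg0 : ∀ z ∈ B, ‖f z‖ ≤ δ / 2 → δ / 2 ≤ ‖g z‖ := by
    intro z hz h1
    have := hfg z hz
    linarith
  have hgne : ∀ z ∈ B, ‖f z‖ ≤ δ / 2 → g z ≠ 0 := by
    intro z hz h1 h2
    have := hg0 z hz h1
    rw [h2, norm_zero] at this
    linarith
  have hlarge : ∀ z ∈ B, δ / 2 < ‖f z‖ → ∀ᶠ w in 𝓝 z, δ / 2 ≤ ‖f w‖ := by
    intro z hz h1
    have h2 : ContinuousAt (fun w => ‖f w‖) z := (cf z hz).continuousAt.norm
    filter_upwards [h2.eventually (lt_mem_nhds h1)] with w hw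
    exact le_of_lt hw
  have hΨl : ∀ z ∈ B, δ / 2 < ‖f z‖ → (fun w => ψ (f w) / g w) =ᶠ[𝓝 z] fun _ => 0 := by
    intro z hz h1
    filter_upwards [hlarge z hz h1] with w hw
    rw [hψ0 _ hw, zero_div]
  have hkl : ∀ z ∈ B, δ / 2 < ‖f z‖ → (fun w => χ (f w) / g w) =ᶠ[𝓝 z] fun _ => 0 := by
    intro z hz h1
    filter_upwards [hlarge z hz h1] with w hw
    rw [hχ0 _ hw, zero_div]
  have hhl : ∀ z ∈ B, f z = 0 → (fun w => (1 - χ (f w)) / f w) =ᶠ[𝓝 z] fun _ => 0 := by
    intro z hz h1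
    have h2 : ContinuousAt (fun w => ‖f w‖) z := (cf z hz).continuousAt.norm
    have h3 : ‖f z‖ < δ / 4 := by rw [h1, norm_zero]; positivity
    filter_upwards [h2.eventually (gt_mem_nhds h3)] with w hw
    rw [hχ1 _ (le_of_lt hw), sub_self, zero_div]
  have cψ : ∀ z ∈ B, ContDiffAt ℝ 1 (fun w => ψ (f w)) z := fun z hz =>
    hψ.contDiffAt.comp z (cf z hz)
  have cχ : ∀ z ∈ B, ContDiffAt ℝ 1 (fun w => χ (f w)) z := fun z hz =>
    hχ.contDiffAt.comp z (cf z hz)
  refine ⟨fun w => ψ (f w) / g w, fun w => (1 - χ (f w)) / f w, fun w => χ (f w) / g w,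
    ?_, ?_, ?_, ?_, ?_, ?_, ?_⟩
  · intro z hz
    apply ContDiffAt.contDiffWithinAt
    rcases le_or_gt ‖f z‖ (δ / 2) with h1 | h1
    · exact cdiv (cψ z hz) (cg z hz) (hgne z hz h1)
    · exact contDiffAt_const.congr_of_eventuallyEq (hΨl z hz h1)
  · intro z hz
    apply ContDiffAt.contDiffWithinAt
    by_cases h1 : f z = 0
    · exact contDiffAt_const.congr_of_eventuallyEq (hhl z hz h1)
    · exact cdiv (contDiffAt_const.sub (cχ z hz)) (cf z hz) h1
  · intro z hz
    apply ContDiffAt.contDiffWithinAt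
    rcases le_or_gt ‖f z‖ (δ / 2) with h1 | h1
    · exact cdiv (cχ z hz) (cg z hz) (hgne z hz h1)
    · exact contDiffAt_const.congr_of_eventuallyEq (hkl z hz h1)
  · intro z hz
    refine ⟨?_, ?_, ?_, ?_⟩
    · show ‖ψ (f z) / g z‖ ≤ C₁
      rcases le_or_gt ‖f z‖ (δ / 2) with h1 | h1
      · have h2 := hg0 z hz h1
        have h3 : ‖ψ (f z) / g z‖ ≤ C / (δ / 2) := by
          rw [norm_div]
          exact div_le_div₀ hC (hψb _) (by positivity) h2
        have h4 : C / (δ / 2) = 2 * C / δ := by field_simp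
        linarith
      · rw [hψ0 _ h1.le, zero_div, norm_zero]
        exact hC₁0
    · show ‖(1 - χ (f z)) / f z‖ ≤ C₁
      rcases le_or_gt ‖f z‖ (δ / 4) with h1 | h1
      · rw [hχ1 _ h1, sub_self, zero_div, norm_zero]
        exact hC₁0
      · have h2 : ‖1 - χ (f z)‖ ≤ 2 := by
          refine (norm_sub_le _ _).trans ?_
          rw [norm_one]
          have := hχb (f z)
          linarith
        have h3 : ‖(1 - χ (f z)) / f z‖ ≤ 2 / (δ / 4) := by
          rw [norm_div]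
          exact div_le_div₀ (by norm_num) h2 (by positivity) h1.le
        have h4 : 2 / (δ / 4) = 8 / δ := by field_simp; norm_num
        linarith
    · show ‖χ (f z) / g z‖ ≤ C₁
      rcases le_or_gt ‖f z‖ (δ / 2) with h1 | h1
      · have h2 := hg0 z hz h1
        have h3 : ‖χ (f z) / g z‖ ≤ 1 / (δ / 2) := by
          rw [norm_div]
          exact div_le_div₀ zero_le_one (hχb _) (by positivity) h2
        have h4 : 1 / (δ / 2) ≤ 8 / δ := by
          rw [one_div_div]
          exact div_le_div_of_nonneg_right (by norm_num) hδ.le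
        linarith
      · rw [hχ0 _ h1.le, zero_div, norm_zero]
        exact hC₁0
    · show f z * ((1 - χ (f z)) / f z) + g z * (χ (f z) / g z) = 1
      by_cases h1 : f z = 0
      · have h2 : χ (f z) = 1 := hχ1 _ (by rw [h1, norm_zero]; positivity)
        have h3 : g z ≠ 0 := hgne z hz (by rw [h1, norm_zero]; positivity)
        rw [h2, h1]
        field_simp
        ring
      · by_cases h3 : g z = 0
        · have h4 : δ / 2 ≤ ‖f z‖ := by
            have := hfg z hz
            rw [h3, norm_zero] at this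
            linarith
          rw [hχ0 _ h4, h3]
          field_simp
          ring
        · field_simp
          ring
  · intro z hz ξ
    rcases le_or_gt ‖f z‖ (δ / 2) with h1 | h1
    · have hgz := hg0 z hz h1
      have hgn := hgne z hz h1
      have hf' : HasFDerivAt f ((fderiv ℂ f z).restrictScalars ℝ) z :=
        (df z hz).hasFDerivAt.restrictScalars ℝ
      have hg' : HasFDerivAt g ((fderiv ℂ g z).restrictScalars ℝ) z :=
        (dg z hz).hasFDerivAt.restrictScalars ℝ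
      have hψ' : HasFDerivAt (fun w => ψ (f w)) ((fderiv ℝ ψ (f z)).comp
          ((fderiv ℂ f z).restrictScalars ℝ)) z :=
        ((hψ.differentiable one_ne_zero).differentiableAt.hasFDerivAt).comp z hf'
      have hgi : HasFDerivAt (fun w => (g w)⁻¹)
          ((ContinuousLinearMap.toSpanSingleton ℂ (-((g z) ^ 2)⁻¹) : ℂ →L[ℂ] ℂ).comp
            (fderiv ℂ g z)) z :=
        (hasFDerivAt_inv hgn).comp z (dg z hz).hasFDerivAt
      have hgi' := hgi.restrictScalars ℝ
      have hm : HasFDerivAt (fun w => ψ (f w) * (g w)⁻¹) _ z := hψ'.mul hgi'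
      have he : (fun w => ψ (f w) / g w) = fun w => ψ (f w) * (g w)⁻¹ := by
        funext w; rw [div_eq_mul_inv]
      have hval : fderiv ℝ (fun w => ψ (f w) / g w) z ξ =
          ψ (f z) * (-(fderiv ℂ g z ξ * ((g z) ^ 2)⁻¹)) +
            (g z)⁻¹ * fderiv ℝ ψ (f z) (fderiv ℂ f z ξ) := by
        rw [he, hm.fderiv]
        simp
      rw [hval]
      refine (norm_add_le _ _).trans ?_
      rw [norm_mul, norm_mul, norm_neg, norm_mul, norm_inv, norm_inv, norm_pow]
      have e1 : (‖g z‖ ^ 2)⁻¹ ≤ 4 / δ ^ 2 := by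
        rw [inv_le_comm₀ (by positivity) (by positivity), inv_div]
        nlinarith
      have e2 : ‖g z‖⁻¹ ≤ 2 / δ := by
        rw [inv_le_comm₀ (by positivity) (by positivity), inv_div]
        exact hgz
      have e3 := hψb (f z)
      have e4 := hψd (f z) (fderiv ℂ f z ξ)
      have e5 : ‖ψ (f z)‖ * (‖fderiv ℂ g z ξ‖ * (‖g z‖ ^ 2)⁻¹) ≤
          C * (‖fderiv ℂ g z ξ‖ * (4 / δ ^ 2)) := by gcongr
      have e6 : ‖g z‖⁻¹ * ‖fderiv ℝ ψ (f z) (fderiv ℂ f z ξ)‖ ≤
          (2 / δ) * (C * ‖fderiv ℂ f z ξ‖) := by gcongr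
      have e7 : C * (‖fderiv ℂ g z ξ‖ * (4 / δ ^ 2)) = (4 * C / δ ^ 2) * ‖fderiv ℂ g z ξ‖ := by ring
      have e8 : (2 / δ) * (C * ‖fderiv ℂ f z ξ‖) = (2 * C / δ) * ‖fderiv ℂ f z ξ‖ := by ring
      have e9 : (4 * C / δ ^ 2) * ‖fderiv ℂ g z ξ‖ ≤ C₁ * ‖fderiv ℂ g z ξ‖ :=
        mul_le_mul_of_nonneg_right (by linarith) (norm_nonneg _)
      have e10 : (2 * C / δ) * ‖fderiv ℂ f z ξ‖ ≤ C₁ * ‖fderiv ℂ f z ξ‖ :=
        mul_le_mul_of_nonneg_right (by linarith) (norm_nonneg _)
      linarith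
    · rw [(hΨl z hz h1).fderiv_eq]
      simp only [fderiv_fun_const, Pi.zero_apply, ContinuousLinearMap.zero_apply, norm_zero]
      positivity
  · intro z hz ξ
    show db (fun w => (1 - χ (f w)) / f w) z ξ =
      -(g z * (ψ (f z) / g z * starRingEnd ℂ (fderiv ℂ f z ξ)))
    have hgψ : g z * (ψ (f z) / g z) = ψ (f z) := by
      by_cases h3 : g z = 0
      · have h4 : δ / 2 ≤ ‖f z‖ := by
          have := hfg z hz
          rw [h3, norm_zero] at this
          linarith
        rw [hψ0 _ h4, h3]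
        simp
      · field_simp
    rw [← mul_assoc, hgψ]
    by_cases h1 : f z = 0
    · rw [db_congr (hhl z hz h1), h1, hψz]
      unfold db
      simp
    · have hd : DifferentiableAt ℝ (fun w => χ (f w)) z := (cχ z hz).differentiableAt one_ne_zero
      have h5 : DifferentiableAt ℂ (fun _ : ℂ × ℂ => (1 : ℂ)) z := differentiableAt_const _
      have hd1 : DifferentiableAt ℝ (fun w => 1 - χ (f w)) z := (differentiableAt_const _).sub hd
      rw [db_div hd1 (df z hz) h1,
        db_sub (h5.restrictScalars ℝ) hd, db_hol h5, db_chain hχ (df z hz), hdb]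
      field_simp
      ring
  · intro z hz ξ
    show db (fun w => χ (f w) / g w) z ξ = f z * (ψ (f z) / g z * starRingEnd ℂ (fderiv ℂ f z ξ))
    rcases le_or_gt ‖f z‖ (δ / 2) with h1 | h1
    · have hd : DifferentiableAt ℝ (fun w => χ (f w)) z := (cχ z hz).differentiableAt one_ne_zero
      rw [db_div hd (dg z hz) (hgne z hz h1), db_chain hχ (df z hz), hdb]
      ring
    · rw [db_congr (hkl z hz h1), hψ0 _ h1.le]
      unfold db
      simp

end Pool.Agent.N31.RI
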